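import Pool.Agent.Helper259.Menger.Main

set_option autoImplicit false

namespace Pool.Agent.Results.MP_89afb2_gt.CompleteInvariance

open Pool.Agent.Helper259.Menger

/-- Sanity check: the Menger compactum is not empty. -/
theorem zero_mem (n : ℕ) : (0 : Fin (2 * n + 1) → ℝ) ∈ menger n :=
  mem_menger_of_endpoints (K := 0) (i := fun _ => 0) (fun _ => rfl) (by simp) ∅ (by simp)
    (by simp)

/-- Sanity check: for `n = 1`, exactly `20` of the `27` subcubes are kept. -/
theorem card_kept : (Finset.univ.filter (fun d : Fin 3 → Fin 3 =>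
    (∀ j, (d j : ℕ) / 3 = 0) ∧
      (Finset.univ.filter (fun j => (d j : ℕ) % 3 = 1)).card ≤ 1)).card = 20 ∧
    ∀ d : Fin 3 → Fin 3, Kept 1 1 (fun j => (d j : ℕ)) ↔ ((∀ j, (d j : ℕ) / 3 = 0) ∧
      (Finset.univ.filter (fun j => (d j : ℕ) % 3 = 1)).card ≤ 1) :=
  ⟨by decide +kernel, fun _ => Iff.rfl⟩

/-- **Every Menger compactum `μ^n` with `n ≥ 1` has the complete invariance property**: every
nonempty closed subset of `μ^n` is the fixed point set of a continuous map `μ^n → μ^n`. -/
theorem result : ∀ n : ℕ, 1 ≤ n → HasCIP (menger n) := menger_cip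

end Pool.Agent.Results.MP_89afb2_gt.CompleteInvariance
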